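import Mathlib
import Pool.Agent.H24.BPD

set_option autoImplicit false

namespace Pool.Agent.Results.MP_e5af61_lc.SuperPoly

open Pool.Agent.H24.BPro

/-- For every polynomial `p` there is a Boolean function `f` with `BP₁(f) > p(‖f‖)`. -/
theorem result : ∀ p : Polynomial ℝ, ∃ (n : ℕ) (f : (Fin n → Bool) → Bool),
    (BP1 f : ℝ) > p.eval (weight f : ℝ) :=
  fun p => final p

end Pool.Agent.Results.MP_e5af61_lc.SuperPoly
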